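import Pool.Agent.Helper91.KZ.StM

/-!
# MP_1d885e_al, module ABR: unbounded degrees give long products of cyclic algebras
-/

namespace Pool.Agent.Helper14.KZ

open Pool.Agent.Helper91.KZ Polynomial TensorProduct

universe u

noncomputable section

theorem abr_DV {M A B : Type u} [Field M] [Ring A] [Algebra M A] [DivisionRing B] [Algebra M B]
    (e : A ≃ₐ[M] B) : DV A := by
  constructor
  · intro h
    have h1 := congrArg e h
    rw [map_one, map_zero] at h1
    exact one_ne_zero h1
  · intro x hx
    have h1 : e x ≠ 0 := (map_ne_zero_iff e e.injective).mpr hx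
    have h2 : IsUnit (e.symm (e x)) := (IsUnit.mk0 (e x) h1).map e.symm
    rw [e.symm_apply_apply] at h2
    exact h2

theorem ABR (hCHA : ST_CHA.{u}) (hCHB : ST_CHB.{u}) (hCYD : ST_CYD.{u}) : ST_ABR.{u} := by
  intro F D _ _ _ _ _ p hp hD hinf j
  have key : ∃ (W : Type u) (_ : Field W) (_ : Algebra F W) (K : Type u) (_ : DivisionRing K)
      (_ : Algebra W K) (Om : Type u) (_ : DivisionRing Om) (_ : Algebra W Om),
      FiniteDimensional F W ∧ CYS p W j K ∧ CD W K (p ^ j) ∧ DA W Om ∧ DV (K ⊗[W] Om) ∧
      ∀ κ, ¬ KP p κ W Om := by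
    induction j with
    | zero =>
      have h0 : CYS p F 0 F := by
        show Module.finrank F F = 1
        exact Module.finrank_self F
      exact ⟨F, inferInstance, inferInstance, F, inferInstance, inferInstance, D, inferInstance,
        inferInstance, inferInstance, h0, hCYD F F p 0 hp h0, hD,
        abr_DV (Algebra.TensorProduct.lid F D), hinf⟩
    | succ j ih =>
      obtain ⟨W, w1, w2, K, k1, k2, Om, o1, o2, hW, hCYS, hCD, hOm, hDV, hinf2⟩ := ih
      haveI : Uncountable W := (algebraMap F W).injective.uncountable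
      haveI : PerfectField W := Algebra.IsAlgebraic.perfectField (K := F)
      obtain ⟨E', f1, f2, K', k3, k4, D', d1, d2, T, t1, t2, hE', hCYS', hCD', hD', hDV', hinf',
        hTG, hTp, hTe⟩ := hCHA W K Om p j hp hOm hCYS hCD hDV hinf2
      haveI : Uncountable E' := (algebraMap W E').injective.uncountable
      haveI : PerfectField E' := Algebra.IsAlgebraic.perfectField (K := W)
      obtain ⟨Z, z1, z2, K2, k5, k6, D2, d3, d4, hZ, hCYS2, hCD2, hD2, hDV2, hinf3⟩ :=
        hCHB E' K' D' T p j hp hD' hCYS' hCD' hDV' hinf' hTp hTe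
      letI : Algebra F E' := ((algebraMap W E').comp (algebraMap F W)).toAlgebra
      haveI : IsScalarTower F W E' := IsScalarTower.of_algebraMap_eq fun x => rfl
      haveI : FiniteDimensional F E' := Module.Finite.trans W E'
      letI : Algebra F Z := ((algebraMap E' Z).comp (algebraMap F E')).toAlgebra
      haveI : IsScalarTower F E' Z := IsScalarTower.of_algebraMap_eq fun x => rfl
      haveI : FiniteDimensional F Z := Module.Finite.trans E' Z
      exact ⟨Z, z1, inferInstance, K2, k5, k6, D2, d3, d4, inferInstance, hCYS2, hCD2, hD2, hDV2,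
        hinf3⟩
  obtain ⟨W, w1, w2, K, k1, k2, Om, o1, o2, hW, hCYS, hCD, -⟩ := key
  exact ⟨W, w1, w2, K, k1, k2, hW, hCYS, hCD⟩

end

end Pool.Agent.Helper14.KZ
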