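import Pool.Agent.Helper91.KZ.StM

/-!
# MP_1d885e_al, module BE2: the core of `Γ ⊗ D` is `p`-free
-/

namespace Pool.Agent.Helper14.KZ

open Pool.Agent.Helper91.KZ Polynomial TensorProduct

universe u

noncomputable section

theorem be2_KP {M A B : Type u} [Field M] [Ring A] [Algebra M A] [Ring B] [Algebra M B]
    {p κ : ℕ} (e : A ≃ₐ[M] B) (h : KP p κ M A) : KP p κ M B := by
  intro x hx
  apply h (e.symm x)
  have h1 : dg M (e.symm x) = dg M x := by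
    unfold dg
    rw [minpoly.algEquiv_eq]
  rw [h1]
  exact hx

theorem be2_mi {M R A B : Type u} [Field M] [Ring R] [Algebra M R] [Ring A] [Algebra M A]
    [Ring B] [Algebra M B] {r : ℕ} (h : MI M R A r) (e : A ≃ₐ[M] B) : MI M R B r :=
  ⟨h.1, h.2.map fun f => f.trans e.mapMatrix⟩

theorem be2_NN {M A B : Type u} [Field M] [Ring A] [Algebra M A] [Ring B] [Algebra M B]
    (e : A ≃ₐ[M] B) (q : ℕ) (x : A) : NN M q (e x) = NN M q x := by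
  unfold NN dg
  rw [minpoly.algEquiv_eq]

theorem BE2 (hDRP : ST_DRP.{u}) (hE1 : ST_E1.{u}) (hTWR : ST_TWR.{u}) (hSPT : ST_SPT.{u})
    (hKEY : ST_KEY.{u}) (hMMI : ST_MMI.{u}) (hUNI : ST_UNI.{u}) (hTS : ST_TS.{u}) :
    ST_BE2.{u} := by
  intro F D N Γ D' _ _ _ _ _ _ _ _ _ _ _ _ _ p n r T' hp hD hΓ hΓN hN hT' hD'
  by_contra hno
  have hN' : ∀ (Δ : Type u) [DivisionRing Δ] [Algebra N Δ] (s : ℕ), Cor N (N ⊗[F] D') Δ s →
      KP p 0 N Δ := by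
    intro Δ _ _ s hs
    obtain ⟨rX, X, x1, x2, hX, -⟩ := hTS F D N hD
    have h1 : MI N (N ⊗[F] (Γ ⊗[F] D)) (N ⊗[F] D') r := (hMMI F N).2.1 _ _ _ hD'.2
    have h2 : MI N (N ⊗[F] (Γ ⊗[F] D)) Δ (r * s) := (hMMI N N).1 _ _ _ _ _ h1 hs.2
    have h3 : MI N ((N ⊗[F] Γ) ⊗[N] (N ⊗[F] D)) (N ⊗[N] X) (n * rX) :=
      (hMMI N N).2.2.1 (N ⊗[F] D) X (N ⊗[F] Γ) N n rX hΓN hX.2
    have h4 : MI N (N ⊗[F] (Γ ⊗[F] D)) X (n * rX) := by
      obtain ⟨e4⟩ := (hMMI F N).2.2.2.1 D Γ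
      exact (hMMI N N).2.2.2.2.2 _ _ _ _ ⟨e4.symm⟩
        (be2_mi h3 (Algebra.TensorProduct.lid N X))
    obtain ⟨e⟩ := (hUNI N _ X Δ _ _ h4 h2).2
    exact be2_KP e (hN X rX hX)
  obtain ⟨M, m1, m2, m3, m4, T, t1, t2, t3, t4, ΔM, d1, d2, s, b, hFM, hMN, hTG, hTp, hΔM, hTe,
    hTc⟩ := hDRP F D' N p hp hD'.1 hno hN'
  haveI : Uncountable M := (algebraMap F M).injective.uncountable
  haveI : PerfectField M := Algebra.IsAlgebraic.perfectField (K := F)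
  haveI : FiniteDimensional M T := by
    apply Module.finite_of_finrank_pos
    rw [hTp]
    exact hp.pos
  haveI : FiniteDimensional M N := Module.Finite.of_restrictScalars_finite F M N
  haveI : IsGalois M N := IsGalois.tower_top_of_isGalois F M N
  obtain ⟨K1, k1, k2, Δ', e1, e2, hK1, hTK1, hΔ', hΔ'p, ⟨eK⟩⟩ :=
    hE1 M T ΔM p hp hTp hΔM.1 hTe hTc
  obtain ⟨T1, eT, hT1⟩ := hTWR F M N (Γ ⊗[F] D) T'
  have h5 : MI M (M ⊗[F] (Γ ⊗[F] D)) (M ⊗[F] D') r := (hMMI F M).2.1 _ _ _ hD'.2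
  have h6 : MI M (M ⊗[F] (Γ ⊗[F] D)) ΔM (r * s) := (hMMI M M).1 _ _ _ _ _ h5 hΔM.2
  have h7 : MI M (M ⊗[F] (Γ ⊗[F] D)) (K1 ⊗[M] Δ') (r * s) := be2_mi h6 eK.symm
  have h8 : MI N (N ⊗[M] K1) N p := by
    have h9 := (hSPT M K1 T (by rw [hTp]; exact hK1) hTK1).2 N
    rw [hTp] at h9
    exact h9
  obtain ⟨q1, hq1, hq1p, hq⟩ := hT' M ⟨b, hMN⟩
  refine hKEY M N (M ⊗[F] (Γ ⊗[F] D)) K1 Δ' p b (r * s) q1 T1 hp hMN hK1 h8 hΔ' hΔ'p h7 hq1 hq1p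
    ?_
  intro q hq2 hq3
  have h10 : (fun g h : N ≃ₐ[M] N => NN N q (T1.U g h)) = fun g h : N ≃ₐ[M] N =>
      NN N q (T'.U (g.restrictScalars F) (h.restrictScalars F)) := by
    funext g h
    rw [← hT1 g h, be2_NN]
  rw [h10]
  exact hq q hq2 hq3

end

end Pool.Agent.Helper14.KZ
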