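import Pool.Agent.Helper91.KZ.StM

/-!
# MP_1d885e_al, module CHA: the chain, extension of degree prime to `p`
-/

namespace Pool.Agent.Helper14.KZ

open Pool.Agent.Helper91.KZ Polynomial TensorProduct

universe u

noncomputable section

theorem cha_DV {M A B : Type u} [Field M] [Ring A] [Algebra M A] [DivisionRing B] [Algebra M B]
    (e : A ≃ₐ[M] B) : DV A := by
  constructor
  · intro h
    have h1 := congrArg e h
    rw [map_one, map_zero] at h1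
    exact one_ne_zero h1
  · intro x hx
    have h1 : e x ≠ 0 := (map_ne_zero_iff e e.injective).mpr hx
    have h2 : IsUnit (e.symm (e x)) := (IsUnit.mk0 (e x) h1).map e.symm
    rw [e.symm_apply_apply] at h2
    exact h2

/-- a common divisor of a power of `p` and a number prime to `p` -/
theorem cha_one {p a b k : ℕ} (hp : p.Prime) (h1 : a ∣ p ^ k) (h2 : a ∣ b) (hb : ¬ p ∣ b) :
    a = 1 := by
  obtain ⟨i, -, hi⟩ := (Nat.dvd_prime_pow hp).mp h1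
  rcases Nat.eq_zero_or_pos i with h0 | h0
  · rw [hi, h0, pow_zero]
  · exact absurd ((hi ▸ dvd_pow_self p h0.ne' : p ∣ a).trans h2) hb

theorem CHA (hFDL : ST_FDL.{u}) (hTS : ST_TS.{u}) (hTK : ST_TK.{u}) (hKPD : ST_KPD.{u})
    (hIDD : ST_IDD.{u}) (hCYB : ST_CYB.{u}) (hCS2 : ST_CS2.{u}) (hDVS : ST_DVS.{u})
    (hMMI : ST_MMI.{u}) (hUNI : ST_UNI.{u}) : ST_CHA.{u} := by
  intro E K D _ _ _ _ _ _ _ p j hp hD hCYS hK hDVKD hinf
  haveI : Fact p.Prime := ⟨hp⟩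
  obtain ⟨E', f1, a1, D', d1, d2, s, T, t1, t2, hfin, hnd, hD', hTG, hTp, hTe⟩ :=
    hFDL E D p hp hD (hinf 0)
  haveI : Uncountable E' := (algebraMap E E').injective.uncountable
  haveI : PerfectField E' := Algebra.IsAlgebraic.perfectField (K := E)
  obtain ⟨s1, K', k1, k2, hK', hs1⟩ := hTS E K E' hK.1
  obtain ⟨-, n', hn', hCD⟩ := hIDD E K E' K' (p ^ j) s1 hK hK'.2
  have hs1' : s1 = 1 := cha_one hp ⟨n', hn'⟩ hs1 hnd
  rw [hs1', one_mul] at hn'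
  rw [← hn'] at hCD
  rw [hs1'] at hK'
  have hCYS' : CYS p E' j K' := hCYB E K E' K' p j hp hCYS hK'.2
  have hKcs : CS E K := (hCS2 E).2 K (p ^ j) hK
  have hKcs' : CS E' K' := (hCS2 E').2 K' (p ^ j) hCD
  obtain ⟨r, P, p1, p2, hP, -⟩ := hTK E D K hKcs hD
  have hr : r = 1 := (hDVS E).1 (K ⊗[E] D) P r hDVKD hP.2
  obtain ⟨s', P', q1, q2, hP', hs'⟩ := hTS E P E' hP.1
  have h1 : MI E' (E' ⊗[E] (K ⊗[E] D)) (E' ⊗[E] P) r := (hMMI E E').2.1 _ _ _ hP.2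
  have h2 : MI E' (E' ⊗[E] (K ⊗[E] D)) P' (r * s') := (hMMI E' E').1 _ _ _ _ _ h1 hP'.2
  have h3 : MI E' ((E' ⊗[E] K) ⊗[E'] (E' ⊗[E] D)) (K' ⊗[E'] D') (1 * s) :=
    (hMMI E' E').2.2.1 (E' ⊗[E] D) D' (E' ⊗[E] K) K' 1 s hK'.2 hD'.2
  obtain ⟨s3, X, x1, x2, hX, hs3⟩ := hTK E' D' K' hKcs' hD'.1
  have h4 : MI E' ((E' ⊗[E] K) ⊗[E'] (E' ⊗[E] D)) X (1 * s * s3) :=
    (hMMI E' E').1 _ _ _ _ _ h3 hX.2
  have h5 : MI E' (E' ⊗[E] (K ⊗[E] D)) X (1 * s * s3) := by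
    obtain ⟨e4⟩ := (hMMI E E').2.2.2.1 D K
    exact (hMMI E' E').2.2.2.2.2 _ _ _ _ ⟨e4.symm⟩ h4
  have h6 : r * s' = 1 * s * s3 := (hUNI E' _ P' X _ _ h2 h5).1
  rw [hr, one_mul, one_mul] at h6
  have hs3' : s3 = 1 := by
    rw [hCD.2.2.2, ← pow_mul] at hs3
    exact cha_one hp hs3 ((Dvd.intro_left s h6.symm).trans hs') hnd
  rw [hs3'] at hX
  obtain ⟨eX⟩ := (hDVS E').2.1 _ _ hX.2
  refine ⟨E', f1, a1, K', k1, k2, D', d1, d2, T, t1, t2, hfin, hCYS', hCD, hD'.1, cha_DV eX, ?_,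
    hTG, hTp, hTe⟩
  intro κ hκ
  have h7 := hKPD E D E' D' p κ s hp hD hκ hD'
  apply hinf (padicValNat p s + κ)
  intro x hx
  have h8 := (padicValNat_dvd_iff_le (minpoly.natDegree_pos (hD.alg x)).ne').mp hx
  have h9 : padicValNat p (dg E x) ≤ padicValNat p s + κ := h7 x
  have h10 : padicValNat p s + κ + 1 ≤ padicValNat p (dg E x) := h8
  omega

end

end Pool.Agent.Helper14.KZ
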