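import Pool.Agent.Helper39.KZ.Stmts

/-!
# Crouzeix's conjecture, module COE: Taylor coefficients of the resolvent
-/

set_option autoImplicit false

open Metric Set Polynomial

namespace KZ

/-- finite geometric sum -/
theorem geom_inverse {R : Type*} [Ring R] [Algebra ℂ R] (u : ℂ) (A : R) (h : IsUnit (1 - u • A))
    (k : ℕ) : Ring.inverse (1 - u • A) =
      ∑ j ∈ Finset.range (k + 1), u ^ j • A ^ j +
        u ^ (k + 1) • (A ^ (k + 1) * Ring.inverse (1 - u • A)) := by
  have h1 : (∑ j ∈ Finset.range (k + 1), (u • A) ^ j) * (1 - u • A) = 1 - (u • A) ^ (k + 1) :=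
    geom_sum_mul_neg (u • A) (k + 1)
  have h2 : (1 - u • A) * Ring.inverse (1 - u • A) = 1 := Ring.mul_inverse_cancel _ h
  have h3 := congrArg (fun X => X * Ring.inverse (1 - u • A)) h1
  rw [mul_assoc, h2, mul_one, sub_mul, one_mul] at h3
  have h4 : ∀ j : ℕ, (u • A) ^ j = u ^ j • A ^ j := fun j => smul_pow u A j
  have h5 : Ring.inverse (1 - u • A) = ∑ j ∈ Finset.range (k + 1), (u • A) ^ j +
      (u • A) ^ (k + 1) * Ring.inverse (1 - u • A) := by
    rw [h3, sub_add_cancel]
  rw [← smul_mul_assoc, ← h4 (k + 1), ← Finset.sum_congr rfl fun j _ => h4 j]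
  exact h5

theorem ent_analytic {K : Set ℂ} {g : ℂ → ℂ} (hg : Ext K g)
    {E : Type*} [NormedAddCommGroup E] [InnerProductSpace ℂ E] [FiniteDimensional ℂ E]
    (A : E →L[ℂ] E) (hU : ∀ t ∈ ball (0 : ℂ) 1, IsUnit (1 - g t • A)) (L : E →L[ℂ] E)
    (x y : E) :
    DifferentiableOn ℂ (fun s => inner ℂ y (L ((Ring.inverse (1 - g s • A)) x))) (ball 0 1) := by
  haveI : CompleteSpace E := FiniteDimensional.complete ℂ E
  intro t ht
  have h1 : DifferentiableWithinAt ℂ (fun s => (1 - g s • A : E →L[ℂ] E)) (ball 0 1) t :=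
    (differentiableWithinAt_const _).sub ((hg.diff t ht).smul_const A)
  have h2 : DifferentiableAt ℂ (Ring.inverse : (E →L[ℂ] E) → _) (1 - g t • A) :=
    differentiableAt_inverse (hU t ht)
  have h3 : DifferentiableWithinAt ℂ (fun s => Ring.inverse (1 - g s • A : E →L[ℂ] E))
      (ball 0 1) t :=
    DifferentiableAt.comp_differentiableWithinAt (g := (Ring.inverse : (E →L[ℂ] E) → _)) t h2 h1
  have h4 : DifferentiableWithinAt ℂ (fun s => (Ring.inverse (1 - g s • A : E →L[ℂ] E)) x)
      (ball 0 1) t := h3.clm_apply (differentiableWithinAt_const x)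
  have h5 : DifferentiableAt ℂ ((innerSL ℂ y).comp L)
      ((Ring.inverse (1 - g t • A : E →L[ℂ] E)) x) := ((innerSL ℂ y).comp L).differentiableAt
  exact DifferentiableAt.comp_differentiableWithinAt (g := ((innerSL ℂ y).comp L : E → ℂ)) t h5 h4

/-- averages of `s ^ (-k) F(s)` with `F` analytic and divisible by `s ^ (k + 1)` -/
theorem av_high {r : ℝ} (h0 : 0 < r) (h1 : r < 1) {e : ℂ → ℂ}
    (he : DifferentiableOn ℂ e (ball 0 1)) (k : ℕ) :
    av r (fun s => s⁻¹ ^ k * (s ^ (k + 1) * e s)) = 0 := by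
  have hd : DifferentiableOn ℂ (fun s => s * e s) (ball 0 1) := differentiableOn_id.mul he
  have hsub : closedBall (0 : ℂ) |r| ⊆ ball 0 1 := by
    rw [abs_of_pos h0]
    exact closedBall_subset_ball h1
  have hc : DiffContOnCl ℂ (fun s => s * e s) (ball 0 |r|) := by
    refine DifferentiableOn.diffContOnCl ?_
    refine hd.mono ((closure_ball_subset_closedBall).trans hsub)
  have h2 : av r (fun s => s * e s) = 0 := by
    have h3 := hc.circleAverage
    rw [zero_mul] at h3
    exact h3
  rw [← h2]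
  refine Real.circleAverage_congr_sphere ?_
  intro s hs
  have hs0 : s ≠ 0 := by
    intro h
    rw [h, mem_sphere_zero_iff_norm, norm_zero, abs_of_pos h0] at hs
    exact h0.ne hs
  show s⁻¹ ^ k * (s ^ (k + 1) * e s) = s * e s
  rw [pow_succ, inv_pow]
  field_simp

theorem circInt_of {r : ℝ} (h0 : 0 < r) (h1 : r < 1) {e : ℂ → ℂ}
    (he : DifferentiableOn ℂ e (ball 0 1)) (k : ℕ) (c : ℂ) :
    CircleIntegrable (fun s => s⁻¹ ^ k * (e s * c)) 0 r := by
  refine ContinuousOn.circleIntegrable h0.le ?_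
  have hsub : sphere (0 : ℂ) r ⊆ ball 0 1 :=
    sphere_subset_closedBall.trans (closedBall_subset_ball h1)
  have h2 : ContinuousOn (fun s : ℂ => s⁻¹) (sphere (0 : ℂ) r) := by
    refine continuousOn_id.inv₀ ?_
    intro s hs h
    have h' : s = 0 := h
    rw [h', mem_sphere_zero_iff_norm, norm_zero] at hs
    exact h0.ne hs
  exact (h2.pow k).mul ((he.continuousOn.mono hsub).mul continuousOn_const)

theorem st_COE.{u} (hTAU : ST_TAU) : ST_COE.{u} := by
  intro K g hK hg r h0 h1 E _ _ _ A hU x y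
  obtain ⟨hτ, hh, hτ0, hh0, hgh, hg0, hτne⟩ := hTAU K g hK hg
  have hent : ∀ s, ent g A x y s = tau g s * inner ℂ y ((Ring.inverse (1 - g s • A)) x) := by
    intro s
    unfold ent
    rw [inner_smul_right]
  have hJ := ent_analytic hg A hU 1 x y
  refine ⟨?_, ?_, ?_⟩
  · have h2 : ent g A x y = fun s => tau g s * inner ℂ y ((Ring.inverse (1 - g s • A)) x) :=
      funext hent
    rw [h2]
    exact hτ.mul hJ
  · rw [hent, hτ0, hg.zero, zero_smul, sub_zero, Ring.inverse_one, one_mul]
    rfl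
  · intro k
    have hsub : sphere (0 : ℂ) |r| ⊆ ball 0 1 := by
      rw [abs_of_pos h0]
      exact sphere_subset_closedBall.trans (closedBall_subset_ball h1)
    set e : ℂ → ℂ := fun s => tau g s * dslope g 0 s ^ (k + 1) *
      inner ℂ y ((A ^ (k + 1)) ((Ring.inverse (1 - g s • A)) x)) with he
    have heD : DifferentiableOn ℂ e (ball 0 1) :=
      (hτ.mul (hh.pow (k + 1))).mul (ent_analytic hg A hU (A ^ (k + 1)) x y)
    have h2 : av r (fun s => s⁻¹ ^ k * ent g A x y s) =
        av r (fun s => (∑ j ∈ Finset.range (k + 1),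
            s⁻¹ ^ k * (tau g s * g s ^ j * inner ℂ y ((A ^ j) x))) +
          s⁻¹ ^ k * (s ^ (k + 1) * e s)) := by
      refine Real.circleAverage_congr_sphere ?_
      intro s hs
      have hsU := hU s (hsub hs)
      show s⁻¹ ^ k * ent g A x y s = (∑ j ∈ Finset.range (k + 1),
            s⁻¹ ^ k * (tau g s * g s ^ j * inner ℂ y ((A ^ j) x))) +
          s⁻¹ ^ k * (s ^ (k + 1) * e s)
      have h3 : (Ring.inverse (1 - g s • A)) x = ∑ j ∈ Finset.range (k + 1), g s ^ j • (A ^ j) x +
          g s ^ (k + 1) • (A ^ (k + 1)) ((Ring.inverse (1 - g s • A)) x) := by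
        have h4 := congrArg (fun L : E →L[ℂ] E => L x) (geom_inverse (g s) A hsU k)
        have h5 : (∑ j ∈ Finset.range (k + 1), g s ^ j • A ^ j : E →L[ℂ] E) x =
            ∑ j ∈ Finset.range (k + 1), g s ^ j • (A ^ j) x := by
          rw [ContinuousLinearMap.sum_apply]
          rfl
        rw [← h5]
        exact h4
      rw [hent, h3, inner_add_right, inner_smul_right, inner_sum]
      have h6 : g s ^ (k + 1) = s ^ (k + 1) * dslope g 0 s ^ (k + 1) := by
        rw [← mul_pow, ← hgh]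
      rw [h6, mul_add, mul_add, he, Finset.mul_sum, Finset.mul_sum]
      congr 1
      · refine Finset.sum_congr rfl fun j _ => ?_
        rw [inner_smul_right]
        ring
      · ring
    rw [h2]
    have h7 : ∀ j ∈ Finset.range (k + 1), CircleIntegrable
        (fun s => s⁻¹ ^ k * (tau g s * g s ^ j * inner ℂ y ((A ^ j) x))) 0 r := fun j _ =>
      circInt_of h0 h1 (hτ.mul (hg.diff.pow j)) k _
    have h8 : CircleIntegrable (fun s => s⁻¹ ^ k * (s ^ (k + 1) * e s)) 0 r := by
      have h9 := circInt_of h0 h1 ((differentiableOn_id.pow (k + 1)).mul heD) k 1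
      simp only [mul_one] at h9
      exact h9
    have h20 := Real.circleAverage_fun_add (CircleIntegrable.fun_sum _ h7) h8
    have h21 := Real.circleAverage_fun_sum h7
    have h22 : Real.circleAverage (fun s => s⁻¹ ^ k * (s ^ (k + 1) * e s)) 0 r = 0 :=
      av_high h0 h1 heD k
    rw [h22, add_zero, h21] at h20
    refine h20.trans ?_
    unfold fab
    rw [map_sum, ContinuousLinearMap.sum_apply, inner_sum]
    refine Finset.sum_congr rfl fun j _ => ?_
    rw [map_mul, aeval_C, map_pow, aeval_X]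
    have h10 : (algebraMap ℂ (E →L[ℂ] E) (av r fun s => s⁻¹ ^ k * (tau g s * g s ^ j)) * A ^ j) x =
        (av r fun s => s⁻¹ ^ k * (tau g s * g s ^ j)) • (A ^ j) x := by
      rw [Algebra.algebraMap_eq_smul_one, smul_mul_assoc, one_mul]
      rfl
    rw [h10, inner_smul_right]
    have h11 : (fun s => s⁻¹ ^ k * (tau g s * g s ^ j * inner ℂ y ((A ^ j) x))) =
        fun s => (inner ℂ y ((A ^ j) x)) • (s⁻¹ ^ k * (tau g s * g s ^ j)) := by
      funext s
      rw [smul_eq_mul]
      ring
    show av r (fun s => s⁻¹ ^ k * (tau g s * g s ^ j * inner ℂ y ((A ^ j) x))) = _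
    rw [h11]
    have h12 := Real.circleAverage_fun_smul (a := (inner ℂ y ((A ^ j) x) : ℂ))
      (f := fun s => s⁻¹ ^ k * (tau g s * g s ^ j)) (c := 0) (R := r)
    rw [smul_eq_mul] at h12
    rw [mul_comm]
    exact h12

end KZ
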