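import Pool.Agent.Helper91.KZ.StM

/-!
# MP_1d885e_al, module DRP: the last step in a tower of extensions
-/

namespace Pool.Agent.Helper14.KZ

open Pool.Agent.Helper91.KZ Polynomial TensorProduct

universe u

noncomputable section

theorem DRP (hSYL : ST_SYL.{u}) (hTS : ST_TS.{u}) (hKPD : ST_KPD.{u}) (hDR1 : ST_DR1.{u})
    (hMMI : ST_MMI.{u}) : ST_DRP.{u} := by
  intro F D N _ _ _ _ _ _ _ _ _ p hp hD hno hN
  haveI : Fact p.Prime := ⟨hp⟩
  obtain ⟨F', L', -, -, hF', -, t, ht⟩ := hSYL F N p hp ⊥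
  haveI : Uncountable F' := (algebraMap F F').injective.uncountable
  haveI : PerfectField F' := Algebra.IsAlgebraic.perfectField (K := F)
  have hFN : Module.finrank F' N = p ^ t := by
    have h1 := Module.finrank_mul_finrank F F' N
    rw [ht] at h1
    exact Nat.eq_of_mul_eq_mul_left Module.finrank_pos h1
  obtain ⟨s1, D', d1, d2, hD', hs1⟩ := hTS F D F' hD
  have hs1p : padicValNat p s1 = 0 :=
    padicValNat.eq_zero_of_not_dvd fun h => hF' (h.trans hs1)
  have hno' : ¬ KP p 0 F' D' := by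
    intro hK
    apply hno
    intro x hx
    have h2 := hKPD F D F' D' p 0 s1 hp hD hK hD' x
    have h3 : 0 + 1 ≤ padicValNat p (dg F x) :=
      (padicValNat_dvd_iff_le (minpoly.natDegree_pos (hD.alg x)).ne').mp hx
    omega
  have hN' : ∀ (Δ : Type u) [DivisionRing Δ] [Algebra N Δ] (s : ℕ), Cor N (N ⊗[F'] D') Δ s →
      KP p 0 N Δ := by
    intro Δ _ _ s hs
    have h5 := (hMMI F F').2.2.2.2.1 N D D' s1 hD'.2
    exact hN Δ (s1 * s) ⟨hs.1, (hMMI N N).1 (N ⊗[F] D) (N ⊗[F'] D') Δ s1 s h5 hs.2⟩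
  obtain ⟨M, m1, m2, m3, m4, T, t1, t2, t3, t4, Δ, e1, e2, s, b, hFM, hMN, hTG, hTp, hΔ, hTe,
    hTc⟩ := hDR1 t F' D' N p hp hFN hD'.1 hno' hN'
  letI : Algebra F M := ((algebraMap F' M).comp (algebraMap F F')).toAlgebra
  haveI : IsScalarTower F F' M := IsScalarTower.of_algebraMap_eq fun x => rfl
  haveI : IsScalarTower F M N := IsScalarTower.of_algebraMap_eq fun x => by
    rw [IsScalarTower.algebraMap_apply F F' N, IsScalarTower.algebraMap_apply F' M N]
    rfl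
  have hFMf : FiniteDimensional F M := Module.Finite.trans F' M
  have h6 := (hMMI F F').2.2.2.2.1 M D D' s1 hD'.2
  exact ⟨M, m1, inferInstance, m3, inferInstance, T, t1, t2, t3, t4, Δ, e1, e2, s1 * s, b, hFMf,
    hMN, hTG, hTp, ⟨hΔ.1, (hMMI M M).1 (M ⊗[F] D) (M ⊗[F'] D') Δ s1 s h6 hΔ.2⟩, hTe, hTc⟩

end

end Pool.Agent.Helper14.KZ
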