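import Pool.Agent.Helper91.KZ.StM

/-!
# MP_1d885e_al, module FDL: cyclic subfields of degree `p`
-/

namespace Pool.Agent.Helper14.KZ

open Pool.Agent.Helper91.KZ Polynomial TensorProduct

universe u

noncomputable section

/-- the field generated by an element of a division ring -/
theorem fdl_field (E D : Type u) [Field E] [DivisionRing D] [Algebra E D] (x : D)
    (hx : IsIntegral E x) : ∃ (L : Type u) (_ : Field L) (_ : Algebra E L),
      FiniteDimensional E L ∧ Module.finrank E L = dg E x ∧ Nonempty (L →ₐ[E] D) := by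
  haveI : Fact (Irreducible (minpoly E x)) := ⟨minpoly.irreducible hx⟩
  have hne : minpoly E x ≠ 0 := minpoly.ne_zero hx
  refine ⟨AdjoinRoot (minpoly E x), inferInstance, inferInstance,
    (AdjoinRoot.powerBasis hne).finite, ?_, ?_⟩
  · rw [(AdjoinRoot.powerBasis hne).finrank, AdjoinRoot.powerBasis_dim]
    rfl
  · refine ⟨Ideal.Quotient.liftₐ (Ideal.span {minpoly E x}) (aeval x) ?_⟩
    intro a ha
    obtain ⟨b, rfl⟩ := Ideal.mem_span_singleton.mp ha
    rw [map_mul, minpoly.aeval, zero_mul]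

theorem FDL (hCEN : ST_CEN.{u}) (hGAL : ST_GAL.{u}) (hSYL : ST_SYL.{u}) (hSTP : ST_STP.{u})
    (hTS : ST_TS.{u}) (hEMB : ST_EMB.{u}) (hMMI : ST_MMI.{u}) (hUNI : ST_UNI.{u}) :
    ST_FDL.{u} := by
  intro E D _ _ _ _ _ p hp hD hK
  haveI : Fact p.Prime := ⟨hp⟩
  simp only [KP, not_forall, not_not, zero_add, pow_one] at hK
  obtain ⟨x, hx⟩ := hK
  obtain ⟨L0, f1, f2, f3, hL0, ⟨i0⟩⟩ := fdl_field E D x (hD.alg x)
  obtain ⟨N, j1, j2, j3, hST, hEN, hMN, hGN, ⟨j⟩⟩ := hGAL E L0 L0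
  obtain ⟨L, hLm, ⟨k⟩⟩ : ∃ L : IntermediateField E N, Module.finrank E L = dg E x ∧
      Nonempty (L →ₐ[E] D) := by
    let e : L0 ≃ₐ[E] j.fieldRange := AlgEquiv.ofInjectiveField j
    refine ⟨j.fieldRange, ?_, ⟨i0.comp e.symm.toAlgHom⟩⟩
    rw [← hL0]
    exact (LinearEquiv.finrank_eq e.toLinearEquiv).symm
  obtain ⟨F, L', hFL', hLL', hF, hL', t, ht⟩ := hSYL E N p hp L
  have hmpos : 0 < dg E x := minpoly.natDegree_pos (hD.alg x)
  rw [hLm] at hL'
  set v := padicValNat p (dg E x) with hv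
  have hv1 : 1 ≤ v := by
    rw [hv]
    exact (padicValNat_dvd_iff_le hmpos.ne').mp (by rw [pow_one]; exact hx)
  haveI : Uncountable F := (algebraMap E F).injective.uncountable
  haveI : Uncountable L := (algebraMap E L).injective.uncountable
  have hFpos : 0 < Module.finrank E F := Module.finrank_pos
  have hFN : Module.finrank F N = p ^ t := by
    have h1 := Module.finrank_mul_finrank E F N
    rw [ht] at h1
    exact Nat.eq_of_mul_eq_mul_left hFpos h1
  -- the field `L'` over `F`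
  obtain ⟨L2, hL2⟩ : ∃ L2 : IntermediateField F N, ∀ z : N, z ∈ L2 ↔ z ∈ L' :=
    ⟨IntermediateField.extendScalars hFL', fun z => IntermediateField.mem_extendScalars hFL'⟩
  have hEL2 : Module.finrank E L2 = Module.finrank E L' := by
    let e : L2 ≃ₗ[E] L' :=
      { toFun := fun z => ⟨z.1, (hL2 z.1).mp z.2⟩
        invFun := fun z => ⟨z.1, (hL2 z.1).mpr z.2⟩
        map_add' := fun _ _ => rfl
        map_smul' := fun _ _ => rfl
        left_inv := fun _ => rfl
        right_inv := fun _ => rfl }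
    exact LinearEquiv.finrank_eq e
  haveI : FiniteDimensional E L2 := by
    apply Module.finite_of_finrank_pos
    rw [hEL2]
    exact Module.finrank_pos
  have hFL2 : Module.finrank F L2 = p ^ v := by
    have h1 := Module.finrank_mul_finrank E F L2
    rw [hEL2, hL'] at h1
    exact Nat.eq_of_mul_eq_mul_left hFpos h1
  obtain ⟨s1, D1, i1, i2, hC1, hs1⟩ := hTS E D F hD
  obtain ⟨s2, X, i3, i4, hC2, hs2⟩ := hTS F D1 L2 hC1.1
  have h5 := (hMMI E F).2.2.2.2.1 L2 D D1 s1 hC1.2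
  have h6 := (hMMI L2 L2).1 (L2 ⊗[E] D) (L2 ⊗[F] D1) X s1 s2 h5 hC2.2
  obtain ⟨C, c1, c2, jC, -, -, -, hCor⟩ := hCEN E D L k hD
  rw [hLm] at hCor
  let incl : L →ₐ[E] L2 :=
    { toFun := fun z => ⟨z.1, (hL2 z.1).mpr (hLL' z.2)⟩
      map_one' := rfl
      map_mul' := fun _ _ => rfl
      map_zero' := rfl
      map_add' := fun _ _ => rfl
      commutes' := fun _ => rfl }
  letI : Algebra L L2 := incl.toRingHom.toAlgebra
  haveI : IsScalarTower E L L2 := IsScalarTower.of_algebraMap_eq (fun z => (incl.commutes z).symm)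
  haveI : FiniteDimensional L L2 := Module.Finite.of_restrictScalars_finite E L L2
  obtain ⟨c, X', x1, x2, hC3, -⟩ := hTS L C L2 hCor.1
  have h7 := (hMMI E L).2.2.2.2.1 L2 D C (dg E x) hCor.2
  have h8 := (hMMI L2 L2).1 (L2 ⊗[E] D) (L2 ⊗[L] C) X' (dg E x) c h7 hC3.2
  have h9 : s1 * s2 = dg E x * c := (hUNI L2 (L2 ⊗[E] D) X X' _ _ h6 h8).1
  have hs1p : ¬ p ∣ s1 := fun h => hF (h.trans hs1)
  have hdvd : p ^ v ∣ s2 := by
    have h10 : p ^ v ∣ s1 * s2 := by
      rw [h9]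
      exact Dvd.dvd.mul_right pow_padicValNat_dvd c
    exact (Nat.Coprime.pow_left v ((Nat.Prime.coprime_iff_not_dvd hp).mpr hs1p)).dvd_of_dvd_mul_left
      h10
  rw [hFL2] at hs2
  have hs2' : s2 = p ^ v := Nat.dvd_antisymm hs2 hdvd
  obtain ⟨emb⟩ := hEMB F D1 L2 X hC1.1 (by rw [hFL2, ← hs2']; exact hC2.2)
  have hbot : L2 ≠ ⊥ := by
    intro h
    rw [h, IntermediateField.finrank_bot] at hFL2
    exact absurd hFL2.symm (Nat.one_lt_pow (by omega) hp.one_lt).ne'
  obtain ⟨T, hTL, hTG, hTp⟩ := hSTP F N p t hp hFN L2 hbot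
  exact ⟨F, inferInstance, inferInstance, D1, i1, i2, s1, T, inferInstance, inferInstance,
    inferInstance, hF, hC1, hTG, hTp, ⟨emb.comp (IntermediateField.inclusion hTL)⟩⟩

end

end Pool.Agent.Helper14.KZ
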