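import Pool.Agent.Helper91.KZ.StS

/-!
# MP_1d885e_al, module IDX: the `p`-part of the size of `M ⊗ D`
-/

namespace Pool.Agent.Helper14.KZ

open Pool.Agent.Helper91.KZ Polynomial TensorProduct

universe u

noncomputable section

theorem idx_dg_pos {E D : Type u} [Field E] [DivisionRing D] [Algebra E D] (h : DA E D) (x : D) :
    0 < dg E x := minpoly.natDegree_pos (h.alg x)

theorem idx_stepA (hTS : ST_TS.{u}) (hKPE : ST_KPE.{u}) (hEMB : ST_EMB.{u}) (hKPC : ST_KPC.{u})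
    (hSTP : ST_STP.{u}) (hMMI : ST_MMI.{u}) (hUNI : ST_UNI.{u}) (p : ℕ) (hp : p.Prime) (t : ℕ) :
    ∀ (E D N Δ : Type u) [Field E] [Uncountable E] [PerfectField E]
      [DivisionRing D] [Algebra E D] [Field N] [Algebra E N] [FiniteDimensional E N]
      [IsGalois E N] [DivisionRing Δ] [Algebra N Δ] (κ s : ℕ), Module.finrank E N = p ^ t →
      DA E D → KP p κ E D → MI N (N ⊗[E] D) Δ s → padicValNat p s ≤ κ := by
  haveI : Fact p.Prime := ⟨hp⟩
  induction t with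
  | zero =>
    intro E D N Δ _ _ _ _ _ _ _ _ _ _ _ κ s hN hD hK hM
    obtain ⟨r, Δ', i1, i2, hC, hr⟩ := hTS E D N hD
    rw [hN, pow_zero] at hr
    have hr1 : r = 1 := Nat.dvd_one.mp hr
    have h := (hUNI N (N ⊗[E] D) Δ Δ' s r hM hC.2).1
    rw [h, hr1]
    simp
  | succ t ih =>
    intro E D N Δ _ _ _ _ _ _ _ _ _ _ _ κ s hN hD hK hM
    have htop : (⊤ : IntermediateField E N) ≠ ⊥ := by
      intro h
      have h1 : Module.finrank E (⊤ : IntermediateField E N) = Module.finrank E N :=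
        IntermediateField.finrank_top'
      rw [h, IntermediateField.finrank_bot, hN] at h1
      exact absurd h1.symm (Nat.one_lt_pow (Nat.succ_ne_zero t) hp.one_lt).ne'
    obtain ⟨T, -, hTG, hTp⟩ := hSTP E N p (t + 1) hp hN ⊤ htop
    haveI : Uncountable T := (algebraMap E T).injective.uncountable
    haveI : PerfectField T := Algebra.IsAlgebraic.perfectField (K := E)
    have hTN : Module.finrank T N = p ^ t := by
      have h1 := Module.finrank_mul_finrank E T N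
      rw [hTp, hN, pow_succ'] at h1
      exact Nat.eq_of_mul_eq_mul_left hp.pos h1
    obtain ⟨s1, D1, i1, i2, hC1, hs1⟩ := hTS E D T hD
    obtain ⟨s2, D2, i3, i4, hC2, hs2⟩ := hTS T D1 N hC1.1
    have h5 := (hMMI E T).2.2.2.2.1 N D D1 s1 hC1.2
    have h6 := (hMMI N N).1 (N ⊗[E] D) (N ⊗[T] D1) D2 s1 s2 h5 hC2.2
    have hs : s = s1 * s2 := (hUNI N (N ⊗[E] D) Δ D2 s (s1 * s2) hM h6).1
    rw [hTp] at hs1
    rcases (Nat.dvd_prime hp).mp hs1 with h | h
    · have hK1 : KP p κ T D1 := hKPE E D T D1 p κ s1 hD hK hC1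
      have h7 := ih T D1 N D2 κ s2 hTN hC1.1 hK1 hC2.2
      rw [hs, h, one_mul]
      exact h7
    · have hM1 : MI T (T ⊗[E] D) D1 (Module.finrank E T) := by
        rw [hTp, ← h]
        exact hC1.2
      have hemb := hEMB E D T D1 hD hM1
      have hx := hKPC E D T D1 p κ s1 hp hD hK hemb hC1
      rw [hTp, padicValNat_self] at hx
      have hκ : 1 ≤ κ := le_trans (Nat.le_add_left 1 _) (hx 0)
      have hK1 : KP p (κ - 1) T D1 := by
        intro x hdvd
        have h8 := hx x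
        rw [Nat.sub_add_cancel hκ] at hdvd
        have h9 := (padicValNat_dvd_iff_le (idx_dg_pos hC1.1 x).ne').mp hdvd
        omega
      have h7 := ih T D1 N D2 (κ - 1) s2 hTN hC1.1 hK1 hC2.2
      have hs2pos : s2 ≠ 0 := hC2.2.1.ne'
      rw [hs, h, padicValNat.mul hp.ne_zero hs2pos, padicValNat_self]
      omega

theorem IDX (hTS : ST_TS.{u}) (hKPE : ST_KPE.{u}) (hEMB : ST_EMB.{u}) (hKPC : ST_KPC.{u})
    (hGAL : ST_GAL.{u}) (hSYL : ST_SYL.{u}) (hSTP : ST_STP.{u}) (hMMI : ST_MMI.{u})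
    (hUNI : ST_UNI.{u}) : ST_IDX.{u} := by
  intro E D M Δ _ _ _ _ _ _ _ _ _ _ p κ s hp hD hK hC
  haveI : Fact p.Prime := ⟨hp⟩
  obtain ⟨N, j1, j2, j3, hST, hEN, hMN, hGN, -⟩ := hGAL E M M
  obtain ⟨sN, ΔN, k1, k2, hCN, hsN⟩ := hTS E D N hD
  haveI : Uncountable M := (algebraMap E M).injective.uncountable
  obtain ⟨s', Δ', k3, k4, hC', hs'⟩ := hTS M Δ N hC.1
  have h5 := (hMMI E M).2.2.2.2.1 N D Δ s hC.2
  have h6 := (hMMI N N).1 (N ⊗[E] D) (N ⊗[M] Δ) Δ' s s' h5 hC'.2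
  have e1 : sN = s * s' := (hUNI N (N ⊗[E] D) ΔN Δ' sN (s * s') hCN.2 h6).1
  obtain ⟨F, L, -, -, hF, -, t, ht⟩ := hSYL E N p hp ⊥
  haveI : Uncountable F := (algebraMap E F).injective.uncountable
  haveI : PerfectField F := Algebra.IsAlgebraic.perfectField (K := E)
  have hFpos : 0 < Module.finrank E F := Module.finrank_pos
  have hFN : Module.finrank F N = p ^ t := by
    have h1 := Module.finrank_mul_finrank E F N
    rw [ht] at h1
    exact Nat.eq_of_mul_eq_mul_left hFpos h1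
  obtain ⟨s1, D1, i1, i2, hC1, hs1⟩ := hTS E D F hD
  obtain ⟨s2, D2, i3, i4, hC2, hs2⟩ := hTS F D1 N hC1.1
  have h7 := (hMMI E F).2.2.2.2.1 N D D1 s1 hC1.2
  have h8 := (hMMI N N).1 (N ⊗[E] D) (N ⊗[F] D1) D2 s1 s2 h7 hC2.2
  have e2 : sN = s1 * s2 := (hUNI N (N ⊗[E] D) ΔN D2 sN (s1 * s2) hCN.2 h8).1
  have hK1 : KP p κ F D1 := hKPE E D F D1 p κ s1 hD hK hC1
  have h9 := idx_stepA hTS hKPE hEMB hKPC hSTP hMMI hUNI p hp t F D1 N D2 κ s2 hFN hC1.1 hK1 hC2.2
  have hs1p : ¬ p ∣ s1 := fun h => hF (h.trans hs1)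
  have e3 : padicValNat p sN = padicValNat p s2 := by
    rw [e2, padicValNat.mul hC1.2.1.ne' hC2.2.1.ne', padicValNat.eq_zero_of_not_dvd hs1p, zero_add]
  have e4 : padicValNat p sN = padicValNat p s + padicValNat p s' := by
    rw [e1, padicValNat.mul hC.2.1.ne' hC'.2.1.ne']
  omega

end

end Pool.Agent.Helper14.KZ
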