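import Pool.Agent.Helper14.KZ.FDL

/-!
# MP_1d885e_al, module KTN: degrees in `K ⊗ D`
-/

namespace Pool.Agent.Helper14.KZ

open Pool.Agent.Helper91.KZ Polynomial TensorProduct

universe u

noncomputable section

theorem mi_congr {M R A B : Type u} [Field M] [Ring R] [Algebra M R] [Ring A] [Algebra M A]
    [Ring B] [Algebra M B] {r : ℕ} (h : MI M R A r) (e : A ≃ₐ[M] B) : MI M R B r :=
  ⟨h.1, h.2.map fun f => f.trans e.mapMatrix⟩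

theorem KTN (hTS : ST_TS.{u}) (hCEN : ST_CEN.{u}) (hIDX : ST_IDX.{u})
    (hSPL : ST_SPL.{u}) (hMMI : ST_MMI.{u}) (hUNI : ST_UNI.{u}) : ST_KTN.{u} := by
  intro E D K Δ _ _ _ _ _ _ _ _ _ p κ n r hp hD hKP hK hKn hΔ x
  haveI : Fact p.Prime := ⟨hp⟩
  obtain ⟨L, f1, f2, f3, hL, ⟨i⟩⟩ := fdl_field E Δ x (hΔ.1.alg x)
  haveI : Uncountable L := (algebraMap E L).injective.uncountable
  obtain ⟨n0, hn0, hn0', hN⟩ := hSPL E K hK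
  have hnn : n0 = n := by
    rw [hKn] at hn0'
    exact (Nat.pow_left_injective (show 2 ≠ 0 by norm_num) hn0').symm
  obtain ⟨N, g1, g2, g3, hST, hEN, hLN, hGal, hNK⟩ := hN L
  rw [hnn] at hNK hn0
  obtain ⟨sN, DN, i1, i2, hDN, -⟩ := hTS E D N hD
  have hv : padicValNat p sN ≤ κ := hIDX E D N DN p κ sN hp hD hKP hDN
  have h1 : MI N ((N ⊗[E] K) ⊗[N] (N ⊗[E] D)) (N ⊗[N] DN) (n * sN) :=
    (hMMI N N).2.2.1 (N ⊗[E] D) DN (N ⊗[E] K) N n sN hNK hDN.2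
  have h2 : MI N (N ⊗[E] (K ⊗[E] D)) DN (n * sN) := by
    obtain ⟨e4⟩ := (hMMI E N).2.2.2.1 D K
    exact (hMMI N N).2.2.2.2.2 _ _ _ _ ⟨e4.symm⟩ (mi_congr h1 (Algebra.TensorProduct.lid N DN))
  have h3 : MI N (N ⊗[E] (K ⊗[E] D)) (N ⊗[E] Δ) r := (hMMI E N).2.1 _ _ _ hΔ.2
  obtain ⟨C, c1, c2, jC, -, -, -, hC⟩ := hCEN E Δ L i hΔ.1
  rw [hL] at hC
  obtain ⟨c, C', c3, c4, hC', -⟩ := hTS L C N hC.1
  have h4 : MI N (N ⊗[E] Δ) (N ⊗[L] C) (dg E x) := (hMMI E L).2.2.2.2.1 N Δ C (dg E x) hC.2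
  have h5 : MI N (N ⊗[E] Δ) C' (dg E x * c) := (hMMI N N).1 _ _ _ _ _ h4 hC'.2
  have h6 : MI N (N ⊗[E] (K ⊗[E] D)) C' (r * (dg E x * c)) := (hMMI N N).1 _ _ _ _ _ h3 h5
  have h7 : r * (dg E x * c) = n * sN := (hUNI N _ C' DN _ _ h6 h2).1
  have hr0 : r ≠ 0 := hΔ.2.1.ne'
  have hx0 : dg E x ≠ 0 := (minpoly.natDegree_pos (hΔ.1.alg x)).ne'
  have hc0 : c ≠ 0 := hC'.2.1.ne'
  have hs0 : sN ≠ 0 := hDN.2.1.ne'
  have h8 := congrArg (padicValNat p) h7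
  rw [padicValNat.mul hr0 (mul_ne_zero hx0 hc0), padicValNat.mul hx0 hc0,
    padicValNat.mul hn0.ne' hs0] at h8
  omega

end

end Pool.Agent.Helper14.KZ
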