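import Pool.Agent.Helper91.KZ.StM

/-!
# MP_1d885e_al, module L4: the tensor product of a `p`-free algebra and an algebra of degree `p ^ e`
-/

namespace Pool.Agent.Helper14.KZ

open Pool.Agent.Helper91.KZ Polynomial TensorProduct

universe u

noncomputable section

theorem l4_KP {M A B : Type u} [Field M] [Ring A] [Algebra M A] [Ring B] [Algebra M B]
    {p κ : ℕ} (e : A ≃ₐ[M] B) (h : KP p κ M A) : KP p κ M B := by
  intro x hx
  apply h (e.symm x)
  have h1 : dg M (e.symm x) = dg M x := by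
    unfold dg
    rw [minpoly.algEquiv_eq]
  rw [h1]
  exact hx

theorem l4_DV {M A B : Type u} [Field M] [Ring A] [Algebra M A] [DivisionRing B] [Algebra M B]
    (e : A ≃ₐ[M] B) : DV A := by
  constructor
  · intro h
    have h1 := congrArg e h
    rw [map_one, map_zero] at h1
    exact one_ne_zero h1
  · intro x hx
    have h1 : e x ≠ 0 := (map_ne_zero_iff e e.injective).mpr hx
    have h2 : IsUnit (e.symm (e x)) := (IsUnit.mk0 (e x) h1).map e.symm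
    rw [e.symm_apply_apply] at h2
    exact h2

/-- an element of full degree -/
theorem l4_prim {E M X : Type u} [Field E] [PerfectField E] [Field M] [Algebra E M]
    [FiniteDimensional E M] [DivisionRing X] [Algebra E X] (i : M →ₐ[E] X) :
    ∃ x : X, dg E x = Module.finrank E M := by
  haveI : Algebra.IsSeparable E M := Algebra.IsAlgebraic.isSeparable_of_perfectField
  obtain ⟨θ, hθ⟩ := Field.exists_primitive_element E M
  refine ⟨i θ, ?_⟩
  unfold dg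
  rw [minpoly.algHom_eq i i.toRingHom.injective]
  exact (Field.primitive_element_iff_minpoly_natDegree_eq E θ).mp hθ

theorem L4 (hTK : ST_TK.{u}) (hTS : ST_TS.{u}) (hKTN : ST_KTN.{u}) (hMAX : ST_MAX.{u})
    (hB7 : ST_B7.{u}) (hIDD : ST_IDD.{u}) (hUNI : ST_UNI.{u}) (hMMI : ST_MMI.{u})
    (hKPE : ST_KPE.{u}) (hCS1 : ST_CS1.{u}) (hCS2 : ST_CS2.{u}) (hDVS : ST_DVS.{u}) :
    ST_L4.{u} := by
  intro E D K _ _ _ _ _ _ _ p e hp hD hKP hK
  haveI : Fact p.Prime := ⟨hp⟩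
  have hKcs : CS E K := (hCS2 E).2 K (p ^ e) hK
  obtain ⟨r, X, x1, x2, hX, hr⟩ := hTK E D K hKcs hD
  have hX0 : ∀ x : X, 0 < dg E x := fun x => minpoly.natDegree_pos (hX.1.alg x)
  have hktn : ∀ x : X, padicValNat p (dg E x) + padicValNat p r ≤ e := by
    intro x
    have h := hKTN E D K X p 0 (p ^ e) r hp hD hKP hKcs hK.2.2.2 hX x
    rw [padicValNat.prime_pow, add_zero] at h
    exact h
  have hXe : KP p e E X := by
    intro x hx
    have h1 := (padicValNat_dvd_iff_le (hX0 x).ne').mp hx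
    have h2 := hktn x
    omega
  obtain ⟨M, m1, m2, hMf, ⟨iM⟩, -, -, hMc⟩ := hMAX E X p e hp hX.1 hXe
  haveI : Uncountable M := (algebraMap E M).injective.uncountable
  haveI : PerfectField M := Algebra.IsAlgebraic.perfectField (K := E)
  obtain ⟨s1, DM, i1, i2, hC1, -⟩ := hTS E D M hD
  have hDM : KP p 0 M DM := hKPE E D M DM p 0 s1 hD hKP hC1
  obtain ⟨s, n0, KM, k1, k2, -, hKM, -⟩ := (hCS2 M).1 (M ⊗[E] K) ((hCS1 E).2 K M hKcs)
  obtain ⟨hs, n', hn', hCD⟩ := hIDD E K M KM (p ^ e) s hK hKM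
  have hKMcs : CS M KM := (hCS2 M).2 KM n' hCD
  have hclaim : ¬ p ∣ n' := by
    intro hdvd
    obtain ⟨r2, X2, y1, y2, hX2, -⟩ := hTK M DM KM hKMcs hC1.1
    have hno : ¬ KP p 0 M X2 := hB7 M DM KM X2 p n' r2 hp hC1.1 hDM hCD hdvd hX2
    apply hno
    have h3 : MI M ((M ⊗[E] K) ⊗[M] (M ⊗[E] D)) (KM ⊗[M] DM) (s * s1) :=
      (hMMI M M).2.2.1 (M ⊗[E] D) DM (M ⊗[E] K) KM s s1 hKM hC1.2
    have h4 : MI M ((M ⊗[E] K) ⊗[M] (M ⊗[E] D)) X2 (s * s1 * r2) :=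
      (hMMI M M).1 _ _ _ _ _ h3 hX2.2
    have h5 : MI M (M ⊗[E] (K ⊗[E] D)) X2 (s * s1 * r2) := by
      obtain ⟨e4⟩ := (hMMI E M).2.2.2.1 D K
      exact (hMMI M M).2.2.2.2.2 _ _ _ _ ⟨e4.symm⟩ h4
    have h6 : MI M (M ⊗[E] (K ⊗[E] D)) (M ⊗[E] X) r := (hMMI E M).2.1 _ _ _ hX.2
    obtain ⟨s3, X3, z1, z2, hX3, -⟩ := hTS E X M hX.1
    have h7 : MI M (M ⊗[E] (K ⊗[E] D)) X3 (r * s3) := (hMMI M M).1 _ _ _ _ _ h6 hX3.2
    obtain ⟨e5⟩ := (hUNI M _ X3 X2 _ _ h7 h5).2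
    exact l4_KP e5 (hMc X3 s3 hX3)
  have hn1 : n' = 1 := by
    have h1 : n' ∣ p ^ e := ⟨s, by rw [hn', mul_comm]⟩
    obtain ⟨i, -, hi⟩ := (Nat.dvd_prime_pow hp).mp h1
    rcases Nat.eq_zero_or_pos i with h0 | h0
    · rw [hi, h0, pow_zero]
    · exact absurd (hi ▸ dvd_pow_self p h0.ne') hclaim
  rw [hn1, mul_one] at hn'
  rw [← hn'] at hs
  have hMpos : 0 < Module.finrank E M := Module.finrank_pos
  have hv : e ≤ padicValNat p (Module.finrank E M) := (padicValNat_dvd_iff_le hMpos.ne').mp hs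
  obtain ⟨x, hx⟩ := l4_prim iM
  have h8 := hktn x
  rw [hx] at h8
  have hr0 : padicValNat p r = 0 := by omega
  have hr1 : r = 1 := by
    rw [hK.2.2.2, ← pow_mul] at hr
    obtain ⟨i, -, hi⟩ := (Nat.dvd_prime_pow hp).mp hr
    rw [hi, padicValNat.prime_pow] at hr0
    rw [hi, hr0, pow_zero]
  rw [hr1] at hX
  obtain ⟨e6⟩ := (hDVS E).2.1 _ _ hX.2
  exact l4_DV e6

end

end Pool.Agent.Helper14.KZ
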