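import Pool.Agent.Helper91.KZ.StM

/-!
# MP_1d885e_al, module MAIN: the primary component
-/

namespace Pool.Agent.Helper14.KZ

open Pool.Agent.Helper91.KZ Polynomial TensorProduct

universe u

noncomputable section

theorem main_KP {M A B : Type u} [Field M] [Ring A] [Algebra M A] [Ring B] [Algebra M B]
    {p κ : ℕ} (e : A ≃ₐ[M] B) (h : KP p κ M A) : KP p κ M B := by
  intro x hx
  apply h (e.symm x)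
  have h1 : dg M (e.symm x) = dg M x := by
    unfold dg
    rw [minpoly.algEquiv_eq]
  rw [h1]
  exact hx

theorem main_equiv_of_finrank_one {F K : Type u} [Field F] [DivisionRing K] [Algebra F K]
    (h : Module.finrank F K = 1) : Nonempty (F ≃ₐ[F] K) := by
  refine ⟨AlgEquiv.ofBijective (Algebra.ofId F K) ⟨?_, ?_⟩⟩
  · exact (algebraMap F K).injective
  · intro w
    obtain ⟨c, hc⟩ := (finrank_eq_one_iff_of_nonzero' (1 : K) one_ne_zero).mp h w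
    refine ⟨c, ?_⟩
    rw [← hc, Algebra.ofId_apply, Algebra.algebraMap_eq_smul_one]

theorem MAIN (hMAX : ST_MAX.{u}) (hGAL : ST_GAL.{u}) (hTS : ST_TS.{u}) (hKPE : ST_KPE.{u})
    (hMMI : ST_MMI.{u}) (hUNI : ST_UNI.{u}) (hBE1 : ST_BE1.{u}) (hBE2 : ST_BE2.{u})
    (hTK : ST_TK.{u}) (hCS2 : ST_CS2.{u}) (hCS3 : ST_CS3.{u}) (hPRI : ST_PRI.{u})
    (hL4 : ST_L4.{u}) (hDVS : ST_DVS.{u}) : ST_MAIN.{u} := by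
  intro F D _ _ _ _ _ p κ hp hD hK hK0
  obtain ⟨M, m1, m2, hMf, hMe, -, -, hMc⟩ := hMAX F D p κ hp hD hK
  obtain ⟨N, j1, j2, j3, hST, hEN, hMN, hGN, -⟩ := hGAL F M M
  haveI : Uncountable M := (algebraMap F M).injective.uncountable
  haveI : PerfectField M := Algebra.IsAlgebraic.perfectField (K := F)
  have hNc : ∀ (Δ : Type u) [DivisionRing Δ] [Algebra N Δ] (s : ℕ), Cor N (N ⊗[F] D) Δ s →
      KP p 0 N Δ := by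
    intro Δ _ _ s hs
    obtain ⟨r, DM, i1, i2, hC1, -⟩ := hTS F D M hD
    obtain ⟨r2, X, i3, i4, hC2, -⟩ := hTS M DM N hC1.1
    have h1 : KP p 0 M DM := hMc DM r hC1
    have h2 : KP p 0 N X := hKPE M DM N X p 0 r2 hC1.1 h1 hC2
    have h5 := (hMMI F M).2.2.2.2.1 N D DM r hC1.2
    have h6 := (hMMI N N).1 (N ⊗[F] D) (N ⊗[M] DM) X r r2 h5 hC2.2
    obtain ⟨e⟩ := (hUNI N (N ⊗[F] D) X Δ _ _ h6 hs.2).2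
    exact main_KP e h2
  obtain ⟨Γ, g1, g2, S, n, k, a, T', hΓ, hS, hΓN, hcoh, hT'⟩ := hBE1 F D N p hp hD hNc
  obtain ⟨r, D', d1, d2, hCD', -⟩ := hTK F D Γ hΓ hD
  have hKD' : KP p 0 F D' := hBE2 F D N Γ D' p n r T' hp hD hΓ hΓN hNc hT' hCD'
  obtain ⟨r0, d, L, l1, l2, hL, hΓL, -⟩ := (hCS2 F).1 Γ hΓ
  obtain ⟨e, he⟩ := hPRI F N Γ L p n k r0 d S a hp hΓ hS hΓN hcoh hΓL hL
  have hLop : CD F Lᵐᵒᵖ d := (hCS3 F).2 L d hL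
  have hLcs : CS F L := (hCS2 F).2 L d hL
  have hMI1 := ((hCS3 F).1 L hLcs).2
  have hDD : ∀ (A : Type u) [Ring A] [Algebra F A], MI F A A 1 := fun A _ _ =>
    (hDVS F).2.2.1 A A ⟨AlgEquiv.refl⟩
  have hDV : DV (Lᵐᵒᵖ ⊗[F] D') := hL4 F D' Lᵐᵒᵖ p e hp hCD'.1 hKD' (by rw [← he]; exact hLop)
  obtain ⟨P, p1, p2, ⟨eP⟩⟩ := (hDVS F).2.2.2 _ hDV
  have a1 : MI F (Γ ⊗[F] D) (L ⊗[F] D) (r0 * 1) :=
    (hMMI F F).2.2.1 D D Γ L r0 1 hΓL (hDD D)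
  obtain ⟨j, X, x1, x2, hCX, -⟩ := hTK F D L hLcs hD
  have a2 : MI F (Γ ⊗[F] D) X (r0 * 1 * j) := (hMMI F F).1 _ _ _ _ _ a1 hCX.2
  obtain ⟨eX⟩ := (hUNI F (Γ ⊗[F] D) X D' _ _ a2 hCD'.2).2
  have a3 : MI F (Lᵐᵒᵖ ⊗[F] (L ⊗[F] D)) (Lᵐᵒᵖ ⊗[F] X) (1 * j) :=
    (hMMI F F).2.2.1 (L ⊗[F] D) X Lᵐᵒᵖ Lᵐᵒᵖ 1 j (hDD _) hCX.2
  have a4 : MI F (Lᵐᵒᵖ ⊗[F] X) P 1 := by
    refine (hDVS F).2.2.1 _ _ ⟨?_⟩
    exact (Algebra.TensorProduct.congr (AlgEquiv.refl : Lᵐᵒᵖ ≃ₐ[F] Lᵐᵒᵖ) eX).trans eP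
  have a5 : MI F (Lᵐᵒᵖ ⊗[F] (L ⊗[F] D)) P (1 * j * 1) := (hMMI F F).1 _ _ _ _ _ a3 a4
  have b1 : MI F (Lᵐᵒᵖ ⊗[F] L) F (Module.finrank F L) :=
    (hMMI F F).2.2.2.2.2 _ _ _ _ ⟨Algebra.TensorProduct.comm F L Lᵐᵒᵖ⟩ hMI1
  have b2 : MI F ((Lᵐᵒᵖ ⊗[F] L) ⊗[F] D) (F ⊗[F] D) (Module.finrank F L * 1) :=
    (hMMI F F).2.2.1 D D (Lᵐᵒᵖ ⊗[F] L) F _ 1 b1 (hDD D)
  have b3 : MI F (F ⊗[F] D) D 1 := (hDVS F).2.2.1 _ _ ⟨Algebra.TensorProduct.lid F D⟩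
  have b4 : MI F ((Lᵐᵒᵖ ⊗[F] L) ⊗[F] D) D (Module.finrank F L * 1 * 1) :=
    (hMMI F F).1 _ _ _ _ _ b2 b3
  have b5 : MI F (Lᵐᵒᵖ ⊗[F] (L ⊗[F] D)) D (Module.finrank F L * 1 * 1) :=
    (hMMI F F).2.2.2.2.2 _ _ _ _ ⟨Algebra.TensorProduct.assoc F F F Lᵐᵒᵖ L D⟩ b4
  obtain ⟨eD⟩ := (hUNI F _ P D _ _ a5 b5).2
  have hiso : Nonempty (Lᵐᵒᵖ ⊗[F] D' ≃ₐ[F] D) := ⟨eP.trans eD⟩
  refine ⟨e, Lᵐᵒᵖ, inferInstance, inferInstance, D', d1, d2, ?_, ?_, hCD'.1, hKD', hiso⟩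
  · rcases Nat.eq_zero_or_pos e with h0 | h0
    · exfalso
      rw [h0, pow_zero] at he
      rw [he] at hLop
      have h1 : Module.finrank F Lᵐᵒᵖ = 1 := by
        rw [hLop.2.2.2]
        norm_num
      obtain ⟨e1⟩ := main_equiv_of_finrank_one h1
      obtain ⟨e2⟩ := hiso
      have e3 : D' ≃ₐ[F] D := ((Algebra.TensorProduct.lid F D').symm.trans
        (Algebra.TensorProduct.congr e1 (AlgEquiv.refl : D' ≃ₐ[F] D'))).trans e2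
      exact hK0 (main_KP e3 hKD')
    · exact h0
  · rw [← he]
    exact hLop

end

end Pool.Agent.Helper14.KZ
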