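import Pool.Agent.Helper39.KZ.Stmts

/-!
# Crouzeix's conjecture, module POS: invertibility and positivity
-/

set_option autoImplicit false

open Metric Set Polynomial

namespace KZ

theorem inner_one_sub {E : Type*} [NormedAddCommGroup E] [InnerProductSpace ℂ E]
    {K : Set ℂ} (A : E →L[ℂ] E) (hA : ∀ x : E, ‖x‖ = 1 → inner ℂ x (A x) ∈ K) (u : ℂ) (x : E)
    (hx : x ≠ 0) : ∃ z ∈ K, inner ℂ x ((1 - u • A) x) = ((‖x‖ ^ 2 : ℝ) : ℂ) * (1 - u * z) := by
  have hn : (‖x‖ : ℂ) ≠ 0 := by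
    exact_mod_cast (norm_pos_iff.mpr hx).ne'
  have h1 : ‖((‖x‖ : ℂ)⁻¹) • x‖ = 1 := by
    rw [norm_smul, norm_inv, Complex.norm_real, norm_norm]
    exact inv_mul_cancel₀ (norm_pos_iff.mpr hx).ne'
  refine ⟨_, hA _ h1, ?_⟩
  rw [map_smul, inner_smul_left, inner_smul_right, map_inv₀, Complex.conj_ofReal]
  have h2 : (1 - u • A) x = x - u • A x := rfl
  have h3 : inner ℂ x x = ((‖x‖ ^ 2 : ℝ) : ℂ) := by
    rw [inner_self_eq_norm_sq_to_K]; push_cast; rfl
  rw [h2, inner_sub_right, inner_smul_right, h3]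
  push_cast
  field_simp

theorem st_POS.{u} (hSTAR : ST_STAR) (hTAU : ST_TAU) : ST_POS.{u} := by
  intro K g hK hg E _ _ _ A hA t ht
  haveI : CompleteSpace E := FiniteDimensional.complete ℂ E
  have hS := hSTAR K g hK hg
  have hT : tau g t ≠ 0 := (hTAU K g hK hg).2.2.2.2.2.2 t ht
  have hinj : Function.Injective ((1 - g t • A : E →L[ℂ] E) : E → E) := by
    rw [injective_iff_map_eq_zero]
    intro x hx
    by_contra hx0
    obtain ⟨z, hz, h1⟩ := inner_one_sub A hA (g t) x hx0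
    rw [hx, inner_zero_right] at h1
    rcases mul_eq_zero.mp h1.symm with h2 | h2
    · have h3 : (‖x‖ ^ 2 : ℝ) = 0 := by exact_mod_cast h2
      exact hx0 (norm_eq_zero.mp (pow_eq_zero_iff two_ne_zero |>.mp h3))
    · exact (hS z hz t ht).1 h2
  have hsurj : Function.Surjective ((1 - g t • A : E →L[ℂ] E) : E → E) :=
    (LinearMap.injective_iff_surjective
      (f := ((1 - g t • A : E →L[ℂ] E) : E →ₗ[ℂ] E))).mp hinj
  have hU : IsUnit (1 - g t • A) :=
    ContinuousLinearMap.isUnit_iff_bijective.mpr ⟨hinj, hsurj⟩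
  refine ⟨hU, ?_⟩
  intro y
  set x : E := Ring.inverse (1 - g t • A) y with hx
  have hy : y = (1 - g t • A) x := by
    have h1 : (1 - g t • A) * Ring.inverse (1 - g t • A) = 1 := Ring.mul_inverse_cancel _ hU
    have h2 := congrArg (fun L : E →L[ℂ] E => L y) h1
    exact h2.symm
  have h3 : ent g A y y t = tau g t * inner ℂ ((1 - g t • A) x) x := by
    unfold ent
    rw [inner_smul_right, ← hx, ← hy]
  rw [h3]
  by_cases hx0 : x = 0
  · rw [hx0, inner_zero_right, mul_zero, Complex.zero_re]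
  obtain ⟨z, hz, h4⟩ := inner_one_sub A hA (g t) x hx0
  obtain ⟨h5, h6⟩ := hS z hz t ht
  have h7 : inner ℂ ((1 - g t • A) x) x = (starRingEnd ℂ) (inner ℂ x ((1 - g t • A) x)) :=
    (inner_conj_symm _ _).symm
  rw [h7, h4, map_mul, Complex.conj_ofReal]
  have h8 : tau g t * (((‖x‖ ^ 2 : ℝ) : ℂ) * (starRingEnd ℂ) (1 - g t * z)) =
      ((‖x‖ ^ 2 * Complex.normSq (1 - g t * z) : ℝ) : ℂ) * (tau g t / (1 - g t * z)) := by
    have h9 : (starRingEnd ℂ) (1 - g t * z) =
        ((Complex.normSq (1 - g t * z) : ℝ) : ℂ) / (1 - g t * z) := by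
      rw [eq_div_iff h5, mul_comm, Complex.mul_conj]
    rw [h9]
    push_cast
    ring
  rw [h8, Complex.re_ofReal_mul]
  exact mul_nonneg (mul_nonneg (sq_nonneg _) (Complex.normSq_nonneg _)) h6

end KZ
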