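import Pool.Agent.Helper91.KZ.StM

/-!
# MP_1d885e_al, module RES: the conclusion for fields of bounded cyclic length
-/

namespace Pool.Agent.Helper14.KZ

open Pool.Agent.Helper91.KZ Polynomial TensorProduct

universe u

noncomputable section

theorem RES (hABR : ST_ABR.{u}) (hMAIN : ST_MAIN.{u}) : ST_RES.{u} := by
  intro F D _ _ _ _ _ hD hnc hB
  obtain ⟨x, y, hxy⟩ := hnc
  have h0 : 0 < dg F x := minpoly.natDegree_pos (hD.alg x)
  have h1 : dg F x ≠ 1 := by
    intro h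
    obtain ⟨a, ha⟩ := (minpoly.natDegree_eq_one_iff (A := F) (x := x)).mp h
    apply hxy
    rw [← ha]
    exact Algebra.commutes a y
  obtain ⟨p, hp, hpx⟩ := Nat.exists_prime_and_dvd h1
  have hno : ¬ KP p 0 F D := by
    intro hK
    exact hK x (by rw [zero_add, pow_one]; exact hpx)
  obtain ⟨B, hB⟩ := hB p hp
  have hex : ∃ κ, KP p κ F D := by
    by_contra hinf
    obtain ⟨W, w1, w2, K, k1, k2, hW, hCYS, -⟩ :=
      hABR F D p hp hD (fun κ hκ => hinf ⟨κ, hκ⟩) B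
    exact hB W K hCYS
  obtain ⟨κ, hκ⟩ := hex
  obtain ⟨e, K, k1, k2, C, c1, c2, he, hK, hC, hCp, hiso⟩ := hMAIN F D p κ hp hD hκ hno
  exact ⟨p, e, K, k1, k2, C, c1, c2, hp, he, hK, hC, hCp, hiso⟩

end

end Pool.Agent.Helper14.KZ
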